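import Pool.Agent.MP_4948b4_mp.Kron

/-!
From a list of three point terms to polynomials on three charts of the space of triangles, and a
subdivision checker for their sign.
-/

namespace Pool.Agent.MP_4948b4_mp

/-- `tau m (2 cos t) = 2 cos (m t)` -/
noncomputable def tau : ℕ → ℝ → ℝ
  | 0, _ => 2
  | 1, x => x
  | m + 2, x => x * tau (m + 1) x - tau m x

/-- the term `c x^i y^j z^k tau m` -/
structure Tm where
  i : ℤ
  j : ℤ
  k : ℤ
  m : ℕ
  c : ℤ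

noncomputable def kap (x y z : ℝ) : ℝ := (x ^ 2 + y ^ 2 - z ^ 2) / (x * y)

noncomputable def Tm.ev (t : Tm) (x y z : ℝ) : ℝ :=
  t.c * x ^ t.i * y ^ t.j * z ^ t.k * tau t.m (kap x y z)

noncomputable def evT (V : List Tm) (x y z : ℝ) : ℝ := (V.map (fun t => t.ev x y z)).sum

noncomputable def Psi (V : List Tm) (a b c : ℝ) : ℝ :=
  evT V b c a + evT V c b a + evT V a c b + evT V c a b + evT V a b c + evT V b a c

def forceNat {β : Type} (n : ℕ) (k : ℕ → β) : β :=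
  match n with
  | 0 => k 0
  | m + 1 => k (Nat.succ m)

theorem forceNat_eq {β : Type} (n : ℕ) (k : ℕ → β) : forceNat n k = k n := by
  cases n <;> rfl

def nn0 : ℤ → Bool
  | Int.ofNat _ => true
  | Int.negSucc _ => false

theorem nn0_iff : ∀ c : ℤ, nn0 c = true ↔ 0 ≤ c
  | Int.ofNat n => by simp [nn0]
  | Int.negSucc _ => by simp [nn0]

/-- two consecutive numerators of Chebyshev polynomials -/
def chebK (N D2 : K) : ℕ → K × K
  | 0 => (K.cst 2, N)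
  | m + 1 => ((chebK N D2 m).2,
      K.add (K.mul N (chebK N D2 m).2) (K.smul (-1) (K.mul D2 (chebK N D2 m).1)))

def qt (q N D2 : K) (e m : ℕ) : K := K.mul (K.pow q e) (chebK N D2 m).1

def item (p l q N D2 : K) (g g3 d : ℤ) (t : Tm) (pe qe : ℤ) : K :=
  K.mul (K.smul (-t.c) (K.mul (K.pow l (t.i + t.j + t.k + g).toNat) (K.pow p (pe + g).toNat)))
    (forceNat (qe + g3 - d * t.m).toNat (fun e => forceNat t.m (fun m => qt q N D2 e m)))

def okI (g g3 d : ℤ) (t : Tm) (pe qe : ℤ) : Bool :=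
  nn0 (t.i + t.j + t.k + g) && nn0 (pe + g) && nn0 (qe + g3 - d * t.m)

def okT (g g3 : ℤ) (t : Tm) : Bool :=
  okI g g3 1 t t.k t.j && okI g g3 1 t t.k t.i && okI g g3 1 t t.i t.j && okI g g3 1 t t.j t.i &&
    okI g g3 0 t t.i t.k && okI g g3 0 t t.j t.k

def six (p l q q2 one NA NB NC : K) (g g3 : ℤ) (t : Tm) : K :=
  K.add (K.add (K.add (item p l q NA q2 g g3 1 t t.k t.j) (item p l q NA q2 g g3 1 t t.k t.i))
    (K.add (item p l q NB q2 g g3 1 t t.i t.j) (item p l q NB q2 g g3 1 t t.j t.i)))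
    (K.add (item p l q NC one g g3 0 t t.i t.k) (item p l q NC one g g3 0 t t.j t.k))

def sumK (f : Tm → K) : List Tm → K
  | [] => K.cst 0
  | t :: V => K.add (f t) (sumK f V)

def base2 (p l s ssp : K) (q : K) (g g3 : ℤ) (V : List Tm) : K :=
  sumK (six p l q (K.mul q q) (K.cst 1)
    (K.add (K.smul 2 q) (K.mul p (K.add ssp (K.smul (-1) p))))
    (K.add (K.add p (K.smul 2 s)) ssp)
    (K.add p (K.smul (-1) (K.add (K.smul 2 s) ssp))) g g3) V
def base1 (p l s sp : K) (g g3 : ℤ) (V : List Tm) : K :=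
  base2 p l s (K.mul s sp) (K.add (K.cst 1) sp) g g3 V
def base (p l s : K) (g g3 : ℤ) (V : List Tm) : K := base1 p l s (K.mul s p) g g3 V

section base
variable {B0 B1 B2 : ℕ} {S : ℝ → ℝ → ℝ → Prop}

theorem rep_cheb {N D2 : K} {κ D : F3} (hN : Rep B0 B1 B2 S N (fun r s t => κ r s t * D r s t))
    (hD : Rep B0 B1 B2 S D2 (fun r s t => D r s t ^ 2)) : ∀ m : ℕ,
    Rep B0 B1 B2 S (chebK N D2 m).1 (fun r s t => D r s t ^ m * tau m (κ r s t)) ∧
    Rep B0 B1 B2 S (chebK N D2 m).2 (fun r s t => D r s t ^ (m + 1) * tau (m + 1) (κ r s t))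
  | 0 => ⟨(Rep.cst 2).congr (fun r s t _ => by simp [tau]),
      hN.congr (fun r s t _ => by simp [tau, mul_comm])⟩
  | m + 1 => by
    obtain ⟨h1, h2⟩ := rep_cheb hN hD m
    exact ⟨h2, ((hN.mul h2).add ((hD.mul h1).smul (-1))).congr (fun r s t _ => by
      rw [tau]; push_cast; ring)⟩

theorem rep_item {p l q N D2 : K} {P L Q κ : F3} (d : ℕ) (hp : Rep B0 B1 B2 S p P)
    (hl : Rep B0 B1 B2 S l L) (hq : Rep B0 B1 B2 S q Q)
    (hN : Rep B0 B1 B2 S N (fun r s t => κ r s t * Q r s t ^ d))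
    (hD : Rep B0 B1 B2 S D2 (fun r s t => (Q r s t ^ d) ^ 2))
    (hS : ∀ r s t, S r s t → 0 < P r s t ∧ 0 < L r s t ∧ 0 < Q r s t)
    (g g3 : ℤ) (w : Tm) (pe qe : ℤ) (h : okI g g3 d w pe qe = true) :
    Rep B0 B1 B2 S (item p l q N D2 g g3 d w pe qe) (fun r s t =>
      -(L r s t ^ g * P r s t ^ g * Q r s t ^ g3) * (w.c * L r s t ^ (w.i + w.j + w.k) *
        P r s t ^ pe * Q r s t ^ qe * tau w.m (κ r s t))) := by
  simp only [okI, Bool.and_eq_true, nn0_iff] at h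
  obtain ⟨⟨h1, h2⟩, h3⟩ := h
  simp only [item, forceNat_eq, qt]
  refine ((((hl.pow _).mul (hp.pow _)).smul _).mul
    ((hq.pow _).mul (rep_cheb hN hD w.m).1)).congr (fun r s t hs => ?_)
  obtain ⟨a1, a2, a3⟩ := hS r s t hs
  rw [← zpow_natCast (L r s t), ← zpow_natCast (P r s t), ← zpow_natCast (Q r s t),
    Int.toNat_of_nonneg h1, Int.toNat_of_nonneg h2, Int.toNat_of_nonneg h3, ← pow_mul,
    ← zpow_natCast (Q r s t) (d * w.m), zpow_sub₀ a3.ne', zpow_add₀ a1.ne' _ g, zpow_add₀ a2.ne',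
    zpow_add₀ a3.ne']
  have : Q r s t ^ ((d : ℤ) * w.m) ≠ 0 := by positivity
  push_cast
  field_simp

theorem rep_base {p l s : K} {P L T : F3} (hp : Rep B0 B1 B2 S p P) (hl : Rep B0 B1 B2 S l L)
    (hs : Rep B0 B1 B2 S s T)
    (hS : ∀ r s t, S r s t → 0 < P r s t ∧ 0 < L r s t ∧ 0 < 1 + T r s t * P r s t)
    (g g3 : ℤ) (V : List Tm) (h : V.all (okT g g3) = true) :
    Rep B0 B1 B2 S (base p l s g g3 V) (fun r s t =>
      -(L r s t ^ g * P r s t ^ g * (1 + T r s t * P r s t) ^ g3) *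
        Psi V (P r s t * L r s t) (L r s t) ((1 + T r s t * P r s t) * L r s t)) := by
  have hsp := hs.mul hp
  have hssp := hs.mul hsp
  have hq : Rep B0 B1 B2 S (K.add (K.cst 1) (K.mul s p)) (fun r s t => 1 + T r s t * P r s t) :=
    ((Rep.cst 1).add hsp).congr (fun r s t _ => by simp)
  have hA := (hq.smul 2).add (hp.mul (hssp.add (hp.smul (-1))))
  have hB := (hp.add (hs.smul 2)).add hssp
  have hC := hp.add (((hs.smul 2).add hssp).smul (-1))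
  have hq2 := (hq.mul hq).congr (G := fun r s t => ((1 + T r s t * P r s t) ^ 1) ^ 2)
    (fun r s t _ => by ring)
  have h1 := (Rep.cst (B0 := B0) (B1 := B1) (B2 := B2) (S := S) 1).congr
    (G := fun r s t => ((1 + T r s t * P r s t) ^ 0) ^ 2) (fun r s t _ => by simp)
  have kA := hA.congr (G := fun r s t => kap (L r s t) ((1 + T r s t * P r s t) * L r s t)
      (P r s t * L r s t) * (1 + T r s t * P r s t) ^ 1) (fun r s t h => by
    obtain ⟨a1, a2, a3⟩ := hS r s t h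
    unfold kap; field_simp; push_cast; ring)
  have kB := hB.congr (G := fun r s t => kap (P r s t * L r s t)
      ((1 + T r s t * P r s t) * L r s t) (L r s t) * (1 + T r s t * P r s t) ^ 1) (fun r s t h => by
    obtain ⟨a1, a2, a3⟩ := hS r s t h
    have e : ∀ p q l : ℝ, p ≠ 0 → q ≠ 0 → l ≠ 0 →
        kap (p * l) (q * l) l * q ^ 1 = (p ^ 2 + q ^ 2 - 1) / p := fun p q l _ _ _ => by
      unfold kap; field_simp
    rw [e _ _ _ a1.ne' a3.ne' a2.ne', eq_div_iff a1.ne']; push_cast; ring)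
  have kC := hC.congr (G := fun r s t => kap (P r s t * L r s t) (L r s t)
      ((1 + T r s t * P r s t) * L r s t) * (1 + T r s t * P r s t) ^ 0) (fun r s t h => by
    obtain ⟨a1, a2, a3⟩ := hS r s t h
    unfold kap; field_simp; push_cast; ring)
  have sy : ∀ x y z : ℝ, kap x y z = kap y x z := fun x y z => by unfold kap; ring
  unfold base base1 base2
  induction V with
  | nil => exact (Rep.cst 0).congr (fun r s t _ => by simp [Psi, evT])
  | cons w V ih =>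
    rw [List.all_cons, Bool.and_eq_true] at h
    have ih' := ih h.2
    have h' := h.1
    simp only [okT, Bool.and_eq_true] at h'
    obtain ⟨⟨⟨⟨⟨o1, o2⟩, o3⟩, o4⟩, o5⟩, o6⟩ := h'
    refine (((((rep_item 1 hp hl hq kA hq2 hS g g3 w _ _ o1).add
      (rep_item 1 hp hl hq kA hq2 hS g g3 w _ _ o2)).add
      ((rep_item 1 hp hl hq kB hq2 hS g g3 w _ _ o3).add
      (rep_item 1 hp hl hq kB hq2 hS g g3 w _ _ o4))).add
      ((rep_item 0 hp hl hq kC h1 hS g g3 w _ _ o5).add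
      (rep_item 0 hp hl hq kC h1 hS g g3 w _ _ o6))).add ih').congr (fun r s t hs => ?_)
    obtain ⟨a1, a2, a3⟩ := hS r s t hs
    simp only [Psi, evT, List.map_cons, List.sum_cons, Tm.ev, mul_zpow, zpow_add₀ a2.ne']
    rw [sy ((1 + T r s t * P r s t) * L r s t) (L r s t),
      sy ((1 + T r s t * P r s t) * L r s t) (P r s t * L r s t), sy (L r s t) (P r s t * L r s t)]
    ring

end base

/-! ### boxes -/

/-- the interval `(lo/den, hi/den]` -/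
structure Bx where
  lo : ℤ
  hi : ℤ
  den : ℤ

def Bx.l (b : Bx) : Bx := ⟨2 * b.lo, b.lo + b.hi, 2 * b.den⟩
def Bx.u (b : Bx) : Bx := ⟨b.lo + b.hi, 2 * b.hi, 2 * b.den⟩
def Bx.mem (b : Bx) (x : ℝ) : Prop := 0 < b.den ∧ b.lo < b.den * x ∧ b.den * x ≤ b.hi
def Bx.U (b : Bx) (v : K) : K := K.add (K.cst b.hi) (K.smul b.lo v)
def Bx.W (b : Bx) (v : K) : K := K.add (K.cst b.den) (K.smul b.den v)
noncomputable def Bx.w (b : Bx) (t : ℝ) : ℝ := b.den + b.den * t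
noncomputable def Bx.x (b : Bx) (t : ℝ) : ℝ := (b.hi + b.lo * t) / b.w t

theorem Bx.split (b : Bx) {x : ℝ} (h : b.mem x) : b.l.mem x ∨ b.u.mem x := by
  obtain ⟨h0, h1, h2⟩ := h
  rcases le_or_gt (2 * (b.den * x)) (b.lo + b.hi) with h | h
  · left
    refine ⟨by simp [Bx.l, h0], ?_, ?_⟩ <;> simp only [Bx.l] <;> push_cast <;> linarith
  · right
    refine ⟨by simp [Bx.u, h0], ?_, ?_⟩ <;> simp only [Bx.u] <;> push_cast <;> linarith

theorem Bx.param (b : Bx) {x : ℝ} (h : b.mem x) : ∃ t, 0 ≤ t ∧ 0 < b.w t ∧ b.x t = x := by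
  obtain ⟨h0, h1, h2⟩ := h
  have h0' : (0 : ℝ) < b.den := by exact_mod_cast h0
  have h3 : 0 < b.den * x - b.lo := by linarith
  have h4 : 0 ≤ (b.hi - b.den * x) / (b.den * x - b.lo) := div_nonneg (by linarith) h3.le
  have h5 : 0 < b.w ((b.hi - b.den * x) / (b.den * x - b.lo)) := by unfold Bx.w; positivity
  refine ⟨_, h4, h5, ?_⟩
  unfold Bx.x
  rw [div_eq_iff h5.ne']
  unfold Bx.w
  field_simp
  ring

def tab (U W : K) (D e : ℕ) : K := K.mul (K.pow U e) (K.pow W (D - e))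
def tabZ (U W : K) (D : ℕ) (e : ℤ) : K := forceNat e.toNat (tab U W D)

def tabs (U W : K) : ℕ → ℕ → List K
  | 0, e => [K.pow U e]
  | f + 1, e => K.mul (K.pow U e) (K.pow W (f + 1)) :: tabs U W f (e + 1)

def dot2 : List K → P1 → K
  | T :: L, c :: r => K.add (K.smul c T) (dot2 L r)
  | _, _ => K.cst 0

def dot1 (f : ℤ → K) (σ : ℤ) : ℤ → List K → K
  | _, [] => K.cst 0
  | e, x :: l => K.add (K.mul (f e) x) (dot1 f σ (e + σ) l)

def dot0 (f0 f1 : ℤ → K) (σ0 τ σ1 : ℤ) : ℤ → ℤ → List (List K) → K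
  | _, _, [] => K.cst 0
  | a, b, D :: A => K.add (K.mul (f0 a) (dot1 f1 σ1 b D)) (dot0 f0 f1 σ0 τ σ1 (a + σ0) (b + τ) A)

def rng1 (D1 D2 : ℕ) (σ : ℤ) : ℤ → P2 → Bool
  | _, [] => true
  | e, r :: l => (r.isEmpty || (nn0 e && nn0 (D1 - e) && Nat.ble r.length (D2 + 1))) &&
      rng1 D1 D2 σ (e + σ) l

def rng0 (D0 D1 D2 : ℕ) (σ0 τ σ1 : ℤ) : ℤ → ℤ → P3 → Bool
  | _, _, [] => true
  | a, b, D :: A => (D.isEmpty || (nn0 a && nn0 (D0 - a) && rng1 D1 D2 σ1 b D)) &&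
      rng0 D0 D1 D2 σ0 τ σ1 (a + σ0) (b + τ) A

section leaf
variable {B0 B1 B2 : ℕ} {S : ℝ → ℝ → ℝ → Prop} {U W : K} {w x : F3}

theorem rep_tabZ (hU : Rep B0 B1 B2 S U (fun r s t => x r s t * w r s t)) (hW : Rep B0 B1 B2 S W w)
    (D : ℕ) (e : ℤ) : ∃ G, Rep B0 B1 B2 S (tabZ U W D e) G ∧
      (0 ≤ e → e ≤ D → ∀ r s t, G r s t = w r s t ^ D * x r s t ^ e) := by
  rw [tabZ, forceNat_eq]
  refine ⟨_, (hU.pow _).mul (hW.pow _), fun h1 h2 r s t => ?_⟩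
  obtain ⟨n, rfl⟩ := Int.eq_ofNat_of_zero_le h1
  obtain ⟨d, rfl⟩ := Nat.exists_eq_add_of_le (Int.ofNat_le.1 h2)
  simp only [Int.toNat_natCast, Nat.add_sub_cancel_left, zpow_natCast]
  ring

theorem rep_dot2 (hU : Rep B0 B1 B2 S U (fun r s t => x r s t * w r s t)) (hW : Rep B0 B1 B2 S W w) :
    ∀ (f e : ℕ) (c : P1), c.length ≤ f + 1 → Rep B0 B1 B2 S (dot2 (tabs U W f e) c)
      (fun r s t => w r s t ^ (e + f) * x r s t ^ e * e1 (x r s t) c)
  | 0, e, [], _ => (Rep.cst 0).congr (fun r s t _ => by simp [e1])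
  | f + 1, e, [], _ => (Rep.cst 0).congr (fun r s t _ => by simp [e1])
  | 0, e, [c], _ => (((hU.pow e).smul c).add (Rep.cst 0)).congr (fun r s t _ => by
      simp [e1]; ring)
  | 0, e, _ :: _ :: _, h => by simp at h
  | f + 1, e, c :: l, h => ((((hU.pow e).mul (hW.pow (f + 1))).smul c).add
      (rep_dot2 hU hW f (e + 1) l (by simpa using h))).congr (fun r s t _ => by
      simp only [e1, hor_cons]; ring)

theorem rep_dot1 {f : ℤ → K} {D1 D2 : ℕ}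
    (hf : ∀ e, ∃ G, Rep B0 B1 B2 S (f e) G ∧
      (0 ≤ e → e ≤ D1 → ∀ r s t, G r s t = w r s t ^ D1 * x r s t ^ e))
    (hx : ∀ r s t, S r s t → x r s t ≠ 0) {T : List K} {m z : F3}
    (hT : ∀ c : P1, c.length ≤ D2 + 1 →
      Rep B0 B1 B2 S (dot2 T c) (fun r s t => m r s t * e1 (z r s t) c)) (σ : ℤ) :
    ∀ (D : P2) (e : ℤ), rng1 D1 D2 σ e D = true → Rep B0 B1 B2 S (dot1 f σ e (D.map (dot2 T)))
      (fun r s t => w r s t ^ D1 * m r s t * x r s t ^ e * e2 (x r s t ^ σ) (z r s t) D)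
  | [], e, _ => (Rep.cst 0).congr (fun r s t _ => by simp [e2])
  | c :: D, e, h => by
    simp only [rng1, Bool.and_eq_true, Bool.or_eq_true, nn0_iff, Nat.ble_eq, List.isEmpty_iff] at h
    obtain ⟨G, hG, hG'⟩ := hf e
    have ih := rep_dot1 hf hx hT σ D (e + σ) h.2
    rcases h.1 with rfl | h1
    · refine ((hG.mul (hT [] (by simp))).add ih).congr (fun r s t hs => ?_)
      simp only [e2, e1, hor_cons, hor_nil, zpow_add₀ (hx r s t hs)]; ring
    · refine ((hG.mul (hT c h1.2)).add ih).congr (fun r s t hs => ?_)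
      rw [hG' h1.1.1 (by linarith [h1.1.2])]
      simp only [e2, hor_cons, zpow_add₀ (hx r s t hs)]; ring

theorem rep_dot0 {f0 f1 : ℤ → K} {D0 D1 D2 : ℕ} {w0 x0 : F3}
    (hf0 : ∀ e, ∃ G, Rep B0 B1 B2 S (f0 e) G ∧
      (0 ≤ e → e ≤ D0 → ∀ r s t, G r s t = w0 r s t ^ D0 * x0 r s t ^ e))
    (hx0 : ∀ r s t, S r s t → x0 r s t ≠ 0)
    (hf : ∀ e, ∃ G, Rep B0 B1 B2 S (f1 e) G ∧
      (0 ≤ e → e ≤ D1 → ∀ r s t, G r s t = w r s t ^ D1 * x r s t ^ e))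
    (hx : ∀ r s t, S r s t → x r s t ≠ 0) {T : List K} {m z : F3}
    (hT : ∀ c : P1, c.length ≤ D2 + 1 →
      Rep B0 B1 B2 S (dot2 T c) (fun r s t => m r s t * e1 (z r s t) c)) (σ0 τ σ1 : ℤ) :
    ∀ (A : P3) (a b : ℤ), rng0 D0 D1 D2 σ0 τ σ1 a b A = true →
      Rep B0 B1 B2 S (dot0 f0 f1 σ0 τ σ1 a b (A.map (fun D => D.map (dot2 T))))
      (fun r s t => w0 r s t ^ D0 * w r s t ^ D1 * m r s t * x0 r s t ^ a * x r s t ^ b *
        e3 (x0 r s t ^ σ0 * x r s t ^ τ) (x r s t ^ σ1) (z r s t) A)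
  | [], a, b, _ => (Rep.cst 0).congr (fun r s t _ => by simp [e3])
  | D :: A, a, b, h => by
    simp only [rng0, Bool.and_eq_true, Bool.or_eq_true, nn0_iff, List.isEmpty_iff] at h
    obtain ⟨G, hG, hG'⟩ := hf0 a
    have ih := rep_dot0 hf0 hx0 hf hx hT σ0 τ σ1 A (a + σ0) (b + τ) h.2
    rcases h.1 with rfl | h1
    · refine ((hG.mul (Rep.cst 0)).add ih).congr (fun r s t hs => ?_)
      simp only [e3, e2, hor_cons, hor_nil, zpow_add₀ (hx r s t hs), zpow_add₀ (hx0 r s t hs)]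
      push_cast; ring
    · refine ((hG.mul (rep_dot1 hf hx hT σ1 D b h1.2)).add ih).congr (fun r s t hs => ?_)
      rw [hG' h1.1.1 (by linarith [h1.1.2])]
      simp only [e3, hor_cons, zpow_add₀ (hx r s t hs), zpow_add₀ (hx0 r s t hs)]; ring

end leaf

/-- a chart -/
structure Ch where
  D0 : ℕ
  D1 : ℕ
  D2 : ℕ
  s0 : ℤ
  t : ℤ
  s1 : ℤ
  c0 : ℤ
  c1 : ℤ
  k : ℕ

def Ch.a1 (C : Ch) : ℕ := C.D2 + 1
def Ch.a0 (C : Ch) : ℕ := (C.D2 + 1) * (C.D1 + 1)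
def Ch.N (C : Ch) : ℕ := (C.D2 + 1) * (C.D1 + 1) * (C.D0 + 1)
def Ch.B0 (C : Ch) : ℕ := Nat.pow 2 (C.k * C.a0)
def Ch.B1 (C : Ch) : ℕ := Nat.pow 2 (C.k * C.a1)
def Ch.B2 (C : Ch) : ℕ := Nat.pow 2 (C.k * 1)

def mkT (T : List K) (A : P3) : List (List K) := A.map (fun D => D.map (dot2 T))
def mkAs (D2 : ℕ) (v2 : K) (b : Bx) (A : P3) : List (List K) := mkT (tabs (b.U v2) (b.W v2) D2 0) A

def fin (k N M B0 B1 B2 : ℕ) (x : K) : Bool := x.small B0 B1 B2 && topTest k N M x.X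

def leaf (C : Ch) (M B0 B1 B2 : ℕ) (U0 W0 U1 W1 : K) (As : List (List K)) : Bool :=
  fin C.k C.N M B0 B1 B2 (dot0 (tabZ U0 W0 C.D0) (tabZ U1 W1 C.D1) C.s0 C.t C.s1 C.c0 C.c1 As)

/-- subdivision certificates -/
inductive Tr : Type
  | l : Tr
  | x : Tr → Tr → Tr
  | y : Tr → Tr → Tr
  | z : Tr → Tr → Tr

def go (C : Ch) (M B0 B1 B2 : ℕ) (A : P3) : Tr → Bx → Bx → Bx → List (List K) → Bool
  | .l, b0, b1, _, As => leaf C M B0 B1 B2 (b0.U (K.v0 B0)) (b0.W (K.v0 B0)) (b1.U (K.v1 B1))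
      (b1.W (K.v1 B1)) As
  | .x s t, b0, b1, b2, As => go C M B0 B1 B2 A s b0.l b1 b2 As && go C M B0 B1 B2 A t b0.u b1 b2 As
  | .y s t, b0, b1, b2, As => go C M B0 B1 B2 A s b0 b1.l b2 As && go C M B0 B1 B2 A t b0 b1.u b2 As
  | .z s t, b0, b1, b2, _ => go C M B0 B1 B2 A s b0 b1 b2.l (mkAs C.D2 (K.v2 B2) b2.l A) &&
      go C M B0 B1 B2 A t b0 b1 b2.u (mkAs C.D2 (K.v2 B2) b2.u A)

theorem go_sound (C : Ch) (hk : 0 < C.k) (A : P3)
    (hr : rng0 C.D0 C.D1 C.D2 C.s0 C.t C.s1 C.c0 C.c1 A = true) {x0 x1 z : ℝ} (h0 : 0 < x0)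
    (h1 : 0 < x1) : ∀ (t : Tr) (b0 b1 b2 : Bx),
      go C (mask C.k C.N) C.B0 C.B1 C.B2 A t b0 b1 b2 (mkAs C.D2 (K.v2 C.B2) b2 A) = true →
      b0.mem x0 → b1.mem x1 → b2.mem z → 0 ≤ e3 (x0 ^ C.s0 * x1 ^ C.t) (x1 ^ C.s1) z A
  | .x s t, b0, b1, b2, h, m0, m1, m2 => by
    simp only [go, Bool.and_eq_true] at h
    rcases b0.split m0 with m | m
    · exact go_sound C hk A hr h0 h1 s _ _ _ h.1 m m1 m2
    · exact go_sound C hk A hr h0 h1 t _ _ _ h.2 m m1 m2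
  | .y s t, b0, b1, b2, h, m0, m1, m2 => by
    simp only [go, Bool.and_eq_true] at h
    rcases b1.split m1 with m | m
    · exact go_sound C hk A hr h0 h1 s _ _ _ h.1 m0 m m2
    · exact go_sound C hk A hr h0 h1 t _ _ _ h.2 m0 m m2
  | .z s t, b0, b1, b2, h, m0, m1, m2 => by
    simp only [go, Bool.and_eq_true] at h
    rcases b2.split m2 with m | m
    · exact go_sound C hk A hr h0 h1 s _ _ _ h.1 m0 m1 m
    · exact go_sound C hk A hr h0 h1 t _ _ _ h.2 m0 m1 m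
  | .l, b0, b1, b2, h, m0, m1, m2 => by
    simp only [go, leaf, fin, Bool.and_eq_true] at h
    obtain ⟨t0, a0, w0, rfl⟩ := b0.param m0
    obtain ⟨t1, a1, w1, rfl⟩ := b1.param m1
    obtain ⟨t2, a2, w2, rfl⟩ := b2.param m2
    let S : ℝ → ℝ → ℝ → Prop := fun r s t => r = t0 ∧ s = t1 ∧ t = t2
    have hW : ∀ (b : Bx) (v : K) (F : F3), Rep C.B0 C.B1 C.B2 S v F →
        Rep C.B0 C.B1 C.B2 S (b.W v) (fun r s t => b.w (F r s t)) := fun b v F hv =>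
      (Rep.cst b.den).add (hv.smul b.den)
    have hU : ∀ (b : Bx) (v : K) (F : F3), Rep C.B0 C.B1 C.B2 S v F →
        (∀ r s t, S r s t → 0 < b.w (F r s t)) →
        Rep C.B0 C.B1 C.B2 S (b.U v) (fun r s t => b.x (F r s t) * b.w (F r s t)) :=
      fun b v F hv hw => ((Rep.cst b.hi).add (hv.smul b.lo)).congr (fun r s t hs => by
        rw [Bx.x, div_mul_cancel₀ _ (hw r s t hs).ne'])
    have H := rep_dot0
      (rep_tabZ (hU b0 _ _ Rep.v0 (fun r s t hs => by rw [hs.1]; exact w0)) (hW b0 _ _ Rep.v0) C.D0)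
      (fun r s t hs => by rw [hs.1]; exact h0.ne')
      (rep_tabZ (hU b1 _ _ Rep.v1 (fun r s t hs => by rw [hs.2.1]; exact w1)) (hW b1 _ _ Rep.v1) C.D1)
      (fun r s t hs => by rw [hs.2.1]; exact h1.ne')
      (rep_dot2 (hU b2 _ _ Rep.v2 (fun r s t hs => by rw [hs.2.2]; exact w2)) (hW b2 _ _ Rep.v2)
        C.D2 0) C.s0 C.t C.s1 A C.c0 C.c1 hr
    have := Rep.nonneg (N := C.N) (a0 := C.a0) (a1 := C.a1) hk (Nat.succ_pos _)
      (Nat.mul_pos (Nat.succ_pos _) (Nat.succ_pos _)) H h.1 h.2 a0 a1 a2 ⟨rfl, rfl, rfl⟩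
    by_contra hc
    have hp : 0 < b0.w t0 ^ C.D0 * b1.w t1 ^ C.D1 * (b2.w t2 ^ (0 + C.D2) * b2.x t2 ^ 0) *
        b0.x t0 ^ C.c0 * b1.x t1 ^ C.c1 := by
      rw [pow_zero]; positivity
    have := mul_neg_of_pos_of_neg hp (not_le.1 hc)
    linarith

def unit : Bx := ⟨0, 1, 1⟩
def sbox : Bx := ⟨-1, 15, 15⟩

def run2 (C : Ch) (t : Tr) (M B0 B1 B2 : ℕ) (A : P3) : Bool :=
  rng0 C.D0 C.D1 C.D2 C.s0 C.t C.s1 C.c0 C.c1 A &&
    go C M B0 B1 B2 A t unit unit sbox (mkAs C.D2 (K.v2 B2) sbox A)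

def run1 (C : Ch) (t : Tr) (k0 k1 k2 : ℕ) (x : K) : Bool :=
  x.small (Nat.pow 2 k0) (Nat.pow 2 k1) (Nat.pow 2 k2) && ok3 k0 k1 k2 40 x.X &&
    run2 C t (mask C.k C.N) C.B0 C.B1 C.B2 (dec3 k0 k1 k2 40 x.X)

def baseO (k0 k1 k2 : ℕ) (g g3 : ℤ) (V : List Tm) : Bool → K
  | true => base (K.v0 (Nat.pow 2 k0)) (K.v1 (Nat.pow 2 k1)) (K.v2 (Nat.pow 2 k2)) g g3 V
  | false => base (K.v1 (Nat.pow 2 k1)) (K.v0 (Nat.pow 2 k0)) (K.v2 (Nat.pow 2 k2)) g g3 V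

def run (C : Ch) (t : Tr) (o : Bool) (k0 k1 k2 : ℕ) (g g3 : ℤ) (V : List Tm) : Bool :=
  Nat.blt 0 C.k && Nat.blt 0 k0 && Nat.blt 0 k1 && Nat.blt 0 k2 && V.all (okT g g3) &&
    run1 C t k0 k1 k2 (baseO k0 k1 k2 g g3 V o)

theorem run_sound {C : Ch} {t : Tr} {o : Bool} {k0 k1 k2 : ℕ} {g g3 : ℤ} {V : List Tm}
    (h : run C t o k0 k1 k2 g g3 V = true) {x0 x1 s p l : ℝ} (h0 : 0 < x0) (h0' : x0 ≤ 1)
    (h1 : 0 < x1) (h1' : x1 ≤ 1) (hs : 0 ≤ s) (hs' : s ≤ 1)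
    (hp : p = if o then x0 ^ C.s0 * x1 ^ C.t else x1 ^ C.s1)
    (hl : l = if o then x1 ^ C.s1 else x0 ^ C.s0 * x1 ^ C.t) :
    Psi V (p * l) l ((1 + s * p) * l) ≤ 0 := by
  simp only [run, run1, run2, Bool.and_eq_true, Nat.blt_eq] at h
  obtain ⟨⟨⟨⟨⟨hk, k0p⟩, k1p⟩, k2p⟩, hV⟩, ⟨hsm, hok⟩, hr, hgo⟩ := h
  have G := go_sound C hk _ hr h0 h1 t unit unit sbox hgo (z := s)
    ⟨by simp [unit], by simpa [unit] using h0, by simpa [unit] using h0'⟩
    ⟨by simp [unit], by simpa [unit] using h1, by simpa [unit] using h1'⟩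
    ⟨by simp [sbox], by simp only [sbox]; push_cast; linarith, by simp only [sbox]; push_cast; linarith⟩
  have pp : 0 < p := by rw [hp]; split <;> positivity
  have lp : 0 < l := by rw [hl]; split <;> positivity
  have hW : 0 < l ^ g * p ^ g * (1 + s * p) ^ g3 := by positivity
  have E : e3 (x0 ^ C.s0 * x1 ^ C.t) (x1 ^ C.s1) s (dec3 k0 k1 k2 40 (baseO k0 k1 k2 g g3 V o).X) =
      -(l ^ g * p ^ g * (1 + s * p) ^ g3) * Psi V (p * l) l ((1 + s * p) * l) := by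
    cases o with
    | true =>
      simp only [if_true] at hp hl
      rw [← hp, ← hl]
      exact Rep.decode (S := fun r s t => 0 < r ∧ 0 < s ∧ 0 < 1 + t * r) k0p k1p k2p
        (rep_base Rep.v0 Rep.v1 Rep.v2 (fun r s t h => h) g g3 V hV) hsm hok
        ⟨pp, lp, by positivity⟩
    | false =>
      simp only [Bool.false_eq_true, if_false] at hp hl
      rw [← hp, ← hl]
      exact Rep.decode (S := fun r s t => 0 < s ∧ 0 < r ∧ 0 < 1 + t * s) k0p k1p k2p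
        (rep_base Rep.v1 Rep.v0 Rep.v2 (fun r s t h => h) g g3 V hV) hsm hok
        ⟨pp, lp, by positivity⟩
  rw [E] at G
  by_contra hc
  have := mul_pos hW (not_le.1 hc)
  linarith

def chY (D0 D1 D2 k : ℕ) : Ch := ⟨D0, D1, D2, 1, 0, 1, 0, 0, k⟩
def chZ1 (D0 D1 D2 k : ℕ) : Ch := ⟨D0, D1, D2, 1, 1, -1, 0, 2, k⟩
def chZ2 (D0 D1 D2 k : ℕ) : Ch := ⟨D0, D1, D2, -1, -1, 1, D0, 2, k⟩

theorem Psi_swap1 (V : List Tm) (a b c : ℝ) : Psi V a b c = Psi V b a c := by unfold Psi; ring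
theorem Psi_swap2 (V : List Tm) (a b c : ℝ) : Psi V a b c = Psi V a c b := by unfold Psi; ring

/-- `Psi V ≤ 0` on all triangles -/
def Neg (V : List Tm) : Prop :=
  ∀ a b c : ℝ, 0 < a → 0 < b → 0 < c → a ≤ b + c → b ≤ a + c → c ≤ a + b → Psi V a b c ≤ 0

theorem neg_of_run {V : List Tm} {g g3 : ℤ} {n1 m1 l1 k1 n2 m2 l2 k2 n3 m3 l3 k3 : ℕ}
    {a1 b1 c1 a2 b2 c2 a3 b3 c3 : ℕ} {t1 t2 t3 : Tr}
    (h1 : run (chY n1 m1 l1 k1) t1 true a1 b1 c1 g g3 V = true)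
    (h2 : run (chZ1 n2 m2 l2 k2) t2 true a2 b2 c2 g g3 V = true)
    (h3 : run (chZ2 n3 m3 l3 k3) t3 false a3 b3 c3 g g3 V = true) : Neg V := by
  have H : ∀ a b c : ℝ, 0 < a → a ≤ b → b ≤ c → c ≤ a + b → Psi V a b c ≤ 0 := by
    intro a b c ha hab hbc ht
    have hb : 0 < b := by linarith
    have hs0 : 0 ≤ (c - b) / a := div_nonneg (by linarith) ha.le
    have hs1 : (c - b) / a ≤ 1 := by rw [div_le_one ha]; linarith
    have hp0 : 0 < a / b := by positivity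
    have hp1 : a / b ≤ 1 := by rw [div_le_one hb]; exact hab
    have e1 : a / b * b = a := by field_simp
    have e2 : (1 + (c - b) / a * (a / b)) * b = c := by field_simp; ring
    rw [← e2]
    nth_rewrite 1 [← e1]
    rcases le_total b 1 with hb1 | hb1
    · exact run_sound h1 hp0 hp1 hb hb1 hs0 hs1 (by simp [chY]) (by simp [chY])
    rcases le_total a 1 with ha1 | ha1
    · exact run_sound h2 (x1 := 1 / b) ha ha1 (by positivity) (by rw [div_le_one hb]; exact hb1)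
        hs0 hs1 (by simp [chZ1, div_eq_mul_inv]) (by simp [chZ1])
    · exact run_sound h3 (x0 := 1 / a) (by positivity) (by rw [div_le_one ha]; exact ha1) hp0 hp1
        hs0 hs1 (by simp [chZ2]) (by simp [chZ2]; field_simp)
  intro a b c ha hb hc h4 h5 h6
  rcases le_total a b with hab | hab <;> rcases le_total b c with hbc | hbc <;>
    rcases le_total a c with hac | hac
  · exact H a b c ha hab hbc h6
  · exact H a b c ha hab hbc h6
  · rw [Psi_swap2]; exact H a c b ha hac hbc h5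
  · rw [Psi_swap2, Psi_swap1]; exact H c a b hc hac hab (by linarith)
  · rw [Psi_swap1]; exact H b a c hb hab hac (by linarith)
  · rw [Psi_swap1, Psi_swap2]; exact H b c a hb hbc hac h4
  · rw [Psi_swap1]; exact H b a c hb hab hac (by linarith)
  · rw [Psi_swap1, Psi_swap2, Psi_swap1]; exact H c b a hc hbc hab (by linarith)

end Pool.Agent.MP_4948b4_mp
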