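import Mathlib

/-!
The planar Newtonian `n`-body problem in a uniformly rotating frame; the plane is `ℂ`.
-/

namespace Pool.Agent.MP_4948b4_mp

open Complex

/-- The vector field of the planar Newtonian `n`-body problem with masses `m`, written in the frame
rotating with angular velocity `ω` (inertial position `= exp (i ω t) * position`); a point of phase
space is a pair (positions, velocities). -/
noncomputable def rotField {n : ℕ} (m : Fin n → ℝ) (ω : ℝ) (x : (Fin n → ℂ) × (Fin n → ℂ)) :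
    (Fin n → ℂ) × (Fin n → ℂ) :=
  (x.2, fun i => (ω : ℂ) ^ 2 * x.1 i - 2 * ω * I * x.2 i +
    ∑ j ∈ Finset.univ.erase i, (m j : ℂ) * ((x.1 j - x.1 i) / (‖x.1 j - x.1 i‖ : ℂ) ^ 3))

/-- The angular momentum, in rotating coordinates. -/
noncomputable def angMom {n : ℕ} (m : Fin n → ℝ) (ω : ℝ) (x : (Fin n → ℂ) × (Fin n → ℂ)) : ℝ :=
  ∑ i, m i * ((starRingEnd ℂ) (x.1 i) * (x.2 i + ω * I * x.1 i)).im

/-- `u` is tangent at `(q, 0)` to the set where the centre of mass, the linear momentum and the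
angular momentum are fixed. -/
def Tangent {n : ℕ} (m : Fin n → ℝ) (ω : ℝ) (q : Fin n → ℂ) (u : (Fin n → ℂ) × (Fin n → ℂ)) :
    Prop :=
  ∑ i, (m i : ℂ) * u.1 i = 0 ∧ ∑ i, (m i : ℂ) * (u.2 i + ω * I * u.1 i) = 0 ∧
    fderiv ℝ (angMom m ω) (q, 0) u = 0

end Pool.Agent.MP_4948b4_mp
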