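import Mathlib

/-!
Integer polynomials in three variables, handled through their value at a point of powers of two
together with bounds on weighted sums of the absolute values of the coefficients.
-/

namespace Pool.Agent.MP_4948b4_mp

section generic
variable {α β R : Type} [CommRing R]

/-- Horner evaluation -/
def hor (φ : α → R) (t : R) : List α → R
  | [] => 0
  | a :: l => φ a + t * hor φ t l

@[simp] theorem hor_nil (φ : α → R) (t : R) : hor φ t [] = 0 := rfl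
@[simp] theorem hor_cons (φ : α → R) (t : R) (a : α) (l : List α) :
    hor φ t (a :: l) = φ a + t * hor φ t l := rfl

def addG (ad : α → α → α) : List α → List α → List α
  | [], q => q
  | a :: p, [] => a :: p
  | a :: p, b :: q => ad a b :: addG ad p q

def mulG (ad mu : α → α → α) (z : α) : List α → List α → List α
  | [], _ => []
  | c :: p, q => addG ad (q.map (mu c)) (z :: mulG ad mu z p q)

theorem hor_addG (φ : α → R) (ad : α → α → α) (h : ∀ a b, φ (ad a b) = φ a + φ b) (t : R) :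
    ∀ p q : List α, hor φ t (addG ad p q) = hor φ t p + hor φ t q
  | [], q => by simp [addG]
  | a :: p, [] => by simp [addG]
  | a :: p, b :: q => by simp only [addG, hor_cons, h, hor_addG φ ad h t p q]; ring

theorem hor_map_mul (φ : α → R) (ψ : β → R) (f : α → β) (c t : R) (h : ∀ a, ψ (f a) = c * φ a) :
    ∀ l : List α, hor ψ t (l.map f) = c * hor φ t l
  | [] => by simp
  | a :: l => by simp only [List.map_cons, hor_cons, h, hor_map_mul φ ψ f c t h l]; ring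

theorem hor_mulG (φ : α → R) (ad mu : α → α → α) (z : α) (h : ∀ a b, φ (ad a b) = φ a + φ b)
    (hm : ∀ a b, φ (mu a b) = φ a * φ b) (hz : φ z = 0) (t : R) :
    ∀ p q : List α, hor φ t (mulG ad mu z p q) = hor φ t p * hor φ t q
  | [], q => by simp [mulG]
  | c :: p, q => by
    rw [mulG, hor_addG φ ad h, hor_map_mul φ φ _ (φ c) t (hm c), hor_cons, hz,
      hor_mulG φ ad mu z h hm hz t p q, hor_cons]
    ring

theorem hor_nonneg {S : Type} [CommRing S] [PartialOrder S] [IsOrderedRing S] (ν : α → S) {w : S}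
    (hw : 0 ≤ w) : ∀ l : List α, (∀ a ∈ l, 0 ≤ ν a) → 0 ≤ hor ν w l
  | [], _ => le_rfl
  | a :: l, h => add_nonneg (h a (by simp))
      (mul_nonneg hw (hor_nonneg ν hw l (fun b hb => h b (by simp [hb]))))

theorem hor_eq_zero (ψ : α → R) (t : R) : ∀ l : List α, (∀ a ∈ l, ψ a = 0) → hor ψ t l = 0
  | [], _ => rfl
  | a :: l, h => by
    rw [hor_cons, h a (by simp), hor_eq_zero ψ t l (fun b hb => h b (by simp [hb]))]; simp

theorem nrm_addG (ν : α → ℤ) (ad : α → α → α) (h : ∀ a b, ν (ad a b) ≤ ν a + ν b) {w : ℤ}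
    (hw : 0 ≤ w) : ∀ p q : List α, hor ν w (addG ad p q) ≤ hor ν w p + hor ν w q
  | [], q => by simp [addG]
  | a :: p, [] => by simp [addG]
  | a :: p, b :: q => by
    simp only [addG, hor_cons]
    have h1 := mul_le_mul_of_nonneg_left (nrm_addG ν ad h hw p q) hw
    have h2 := h a b
    nlinarith

theorem nrm_map (ν : α → ℤ) (f : α → α) (c : ℤ) (h : ∀ a, ν (f a) ≤ c * ν a) {w : ℤ}
    (hw : 0 ≤ w) : ∀ l : List α, hor ν w (l.map f) ≤ c * hor ν w l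
  | [] => by simp
  | a :: l => by
    simp only [List.map_cons, hor_cons]
    have h1 := mul_le_mul_of_nonneg_left (nrm_map ν f c h hw l) hw
    have h2 := h a
    nlinarith

theorem nrm_mulG (ν : α → ℤ) (ad mu : α → α → α) (z : α) (h : ∀ a b, ν (ad a b) ≤ ν a + ν b)
    (hm : ∀ a b, ν (mu a b) ≤ ν a * ν b) (hz : ν z = 0) {w : ℤ} (hw : 0 ≤ w) :
    ∀ p q : List α, hor ν w (mulG ad mu z p q) ≤ hor ν w p * hor ν w q
  | [], q => by simp [mulG]
  | c :: p, q => by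
    have h1 := nrm_addG ν ad h hw (q.map (mu c)) (z :: mulG ad mu z p q)
    have h2 := nrm_map ν (mu c) (ν c) (hm c) hw q
    have h3 := mul_le_mul_of_nonneg_left (nrm_mulG ν ad mu z h hm hz hw p q) hw
    rw [mulG]
    simp only [hor_cons, hz] at h1 ⊢
    nlinarith

theorem le_nrm (ν : α → ℤ) (hν : ∀ a, 0 ≤ ν a) : ∀ l : List α, ∀ a ∈ l, ν a ≤ hor ν 1 l
  | [], _, h => by simp at h
  | b :: l, a, h => by
    rw [hor_cons, one_mul]
    rcases List.mem_cons.1 h with rfl | h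
    · have := hor_nonneg ν zero_le_one l (fun a _ => hν a); linarith
    · have := le_nrm ν hν l a h; have := hν b; linarith

theorem abs_hor_le (φ ν : α → ℤ) (h : ∀ a, |φ a| ≤ ν a) {w : ℤ} (hw : 0 ≤ w) :
    ∀ l : List α, |hor φ w l| ≤ hor ν w l
  | [] => by simp
  | a :: l => by
    simp only [hor_cons]
    refine (abs_add_le _ _).trans (add_le_add (h a) ?_)
    rw [abs_mul, abs_of_nonneg hw]
    exact mul_le_mul_of_nonneg_left (abs_hor_le φ ν h hw l) hw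

theorem zero_of_hor (φ : α → ℤ) {B : ℤ} : ∀ l : List α, (∀ a ∈ l, 2 * |φ a| < B) →
    hor φ B l = 0 → ∀ a ∈ l, φ a = 0
  | [], _, _ => by simp
  | b :: l, h, h0 => by
    have hb := h b (by simp)
    have hB : 0 < B := lt_of_le_of_lt (by positivity) hb
    rw [hor_cons] at h0
    have e : hor φ B l = 0 := by
      by_contra hc
      have h1 : 1 ≤ |hor φ B l| := Int.one_le_abs hc
      have h2 : |φ b| = B * |hor φ B l| := by
        rw [show φ b = -(B * hor φ B l) by linarith, abs_neg, abs_mul, abs_of_pos hB]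
      nlinarith [abs_nonneg (φ b)]
    intro a ha
    rcases List.mem_cons.1 ha with rfl | ha
    · rw [e] at h0; simpa using h0
    · exact zero_of_hor φ l (fun c hc => h c (by simp [hc])) e a ha

end generic

abbrev P1 := List ℤ
abbrev P2 := List (List ℤ)
abbrev P3 := List (List (List ℤ))

section ev
variable {R : Type} [CommRing R]

def e1 (z : R) : P1 → R := hor (fun c : ℤ => (c : R)) z
def e2 (y z : R) : P2 → R := hor (e1 z) y
def e3 (x y z : R) : P3 → R := hor (e2 y z) x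

def ad1 : P1 → P1 → P1 := addG (fun a b => a + b)
def ad2 : P2 → P2 → P2 := addG ad1
def ad3 : P3 → P3 → P3 := addG ad2
def mu1 : P1 → P1 → P1 := mulG (fun a b => a + b) (fun a b => a * b) 0
def mu2 : P2 → P2 → P2 := mulG ad1 mu1 []
def mu3 : P3 → P3 → P3 := mulG ad2 mu2 []

theorem e1_ad (z : R) (a b : P1) : e1 z (ad1 a b) = e1 z a + e1 z b :=
  hor_addG _ _ (by simp) z a b
theorem e2_ad (y z : R) (a b : P2) : e2 y z (ad2 a b) = e2 y z a + e2 y z b :=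
  hor_addG _ _ (e1_ad z) y a b
theorem e3_ad (x y z : R) (a b : P3) : e3 x y z (ad3 a b) = e3 x y z a + e3 x y z b :=
  hor_addG _ _ (e2_ad y z) x a b
theorem e1_mu (z : R) (a b : P1) : e1 z (mu1 a b) = e1 z a * e1 z b :=
  hor_mulG _ _ _ _ (by simp) (by simp) (by simp) z a b
theorem e2_mu (y z : R) (a b : P2) : e2 y z (mu2 a b) = e2 y z a * e2 y z b :=
  hor_mulG _ _ _ _ (e1_ad z) (e1_mu z) rfl y a b
theorem e3_mu (x y z : R) (a b : P3) : e3 x y z (mu3 a b) = e3 x y z a * e3 x y z b :=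
  hor_mulG _ _ _ _ (e2_ad y z) (e2_mu y z) rfl x a b

end ev

def n1 (z : ℤ) : P1 → ℤ := hor (fun c : ℤ => |c|) z
def n2 (y z : ℤ) : P2 → ℤ := hor (n1 z) y
def n3 (y z : ℤ) : P3 → ℤ := hor (n2 y z) 1

theorem n1_nonneg {z : ℤ} (hz : 0 ≤ z) (a : P1) : 0 ≤ n1 z a :=
  hor_nonneg _ hz a (fun _ _ => abs_nonneg _)
theorem n2_nonneg {y z : ℤ} (hy : 0 ≤ y) (hz : 0 ≤ z) (a : P2) : 0 ≤ n2 y z a :=
  hor_nonneg _ hy a (fun b _ => n1_nonneg hz b)
theorem n3_nonneg {y z : ℤ} (hy : 0 ≤ y) (hz : 0 ≤ z) (a : P3) : 0 ≤ n3 y z a :=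
  hor_nonneg _ zero_le_one a (fun b _ => n2_nonneg hy hz b)
theorem n1_ad {z : ℤ} (hz : 0 ≤ z) (a b : P1) : n1 z (ad1 a b) ≤ n1 z a + n1 z b :=
  nrm_addG _ _ abs_add_le hz a b
theorem n2_ad {y z : ℤ} (hy : 0 ≤ y) (hz : 0 ≤ z) (a b : P2) :
    n2 y z (ad2 a b) ≤ n2 y z a + n2 y z b := nrm_addG _ _ (n1_ad hz) hy a b
theorem n3_ad {y z : ℤ} (hy : 0 ≤ y) (hz : 0 ≤ z) (a b : P3) :
    n3 y z (ad3 a b) ≤ n3 y z a + n3 y z b := nrm_addG _ _ (n2_ad hy hz) zero_le_one a b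
theorem n1_mu {z : ℤ} (hz : 0 ≤ z) (a b : P1) : n1 z (mu1 a b) ≤ n1 z a * n1 z b :=
  nrm_mulG _ _ _ _ abs_add_le (fun a b => (abs_mul a b).le) (by simp) hz a b
theorem n2_mu {y z : ℤ} (hy : 0 ≤ y) (hz : 0 ≤ z) (a b : P2) :
    n2 y z (mu2 a b) ≤ n2 y z a * n2 y z b := nrm_mulG _ _ _ _ (n1_ad hz) (n1_mu hz) rfl hy a b
theorem n3_mu {y z : ℤ} (hy : 0 ≤ y) (hz : 0 ≤ z) (a b : P3) :
    n3 y z (mu3 a b) ≤ n3 y z a * n3 y z b :=
  nrm_mulG _ _ _ _ (n2_ad hy hz) (n2_mu hy hz) rfl zero_le_one a b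
theorem abs_e1 {z : ℤ} (hz : 0 ≤ z) (a : P1) : |e1 z a| ≤ n1 z a :=
  abs_hor_le _ _ (fun _ => le_rfl) hz a
theorem abs_e2 {y z : ℤ} (hy : 0 ≤ y) (hz : 0 ≤ z) (a : P2) : |e2 y z a| ≤ n2 y z a :=
  abs_hor_le _ _ (abs_e1 hz) hy a

/-- value at the point of powers of two, and three bounds -/
structure K where
  X : ℤ
  a : ℕ
  b : ℕ
  c : ℕ

def K.add (x y : K) : K := ⟨Int.add x.X y.X, Nat.add x.a y.a, Nat.add x.b y.b, Nat.add x.c y.c⟩
def K.mul (x y : K) : K := ⟨Int.mul x.X y.X, Nat.mul x.a y.a, Nat.mul x.b y.b, Nat.mul x.c y.c⟩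
def K.cst (c : ℤ) : K := ⟨c, c.natAbs, c.natAbs, c.natAbs⟩
def K.smul (c : ℤ) (y : K) : K :=
  ⟨Int.mul c y.X, Nat.mul c.natAbs y.a, Nat.mul c.natAbs y.b, Nat.mul c.natAbs y.c⟩
def K.pow (x : K) (n : ℕ) : K := ⟨Int.pow x.X n, Nat.pow x.a n, Nat.pow x.b n, Nat.pow x.c n⟩
def K.v0 (B0 : ℕ) : K := ⟨Int.ofNat B0, 1, 1, 1⟩
def K.v1 (B1 : ℕ) : K := ⟨Int.ofNat B1, 1, 1, B1⟩
def K.v2 (B2 : ℕ) : K := ⟨Int.ofNat B2, 1, B2, B2⟩

abbrev F3 := ℝ → ℝ → ℝ → ℝ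

/-- `x` represents the function `F` on the set `S` -/
def Rep (B0 B1 B2 : ℕ) (S : ℝ → ℝ → ℝ → Prop) (x : K) (F : F3) : Prop :=
  ∃ A : P3, e3 (B0 : ℤ) B1 B2 A = x.X ∧ n3 1 1 A ≤ x.a ∧ n3 1 B2 A ≤ x.b ∧ n3 B1 B2 A ≤ x.c ∧
    ∀ r s t, S r s t → e3 r s t A = F r s t

section rep
variable {B0 B1 B2 : ℕ} {S : ℝ → ℝ → ℝ → Prop} {x y : K} {F G : F3}

theorem Rep.congr (h : Rep B0 B1 B2 S x F) (e : ∀ r s t, S r s t → F r s t = G r s t) :
    Rep B0 B1 B2 S x G := by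
  obtain ⟨A, h0, h1, h2, h3, h4⟩ := h
  exact ⟨A, h0, h1, h2, h3, fun r s t hS => (h4 r s t hS).trans (e r s t hS)⟩

theorem Rep.add (h : Rep B0 B1 B2 S x F) (h' : Rep B0 B1 B2 S y G) :
    Rep B0 B1 B2 S (x.add y) (fun r s t => F r s t + G r s t) := by
  obtain ⟨A, h0, h1, h2, h3, h4⟩ := h
  obtain ⟨C, g0, g1, g2, g3, g4⟩ := h'
  refine ⟨ad3 A C, by rw [e3_ad, h0, g0]; rfl, ?_, ?_, ?_, fun r s t hS => by
    rw [e3_ad, h4 r s t hS, g4 r s t hS]⟩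
  · refine (n3_ad zero_le_one zero_le_one A C).trans ?_
    show _ ≤ ((x.a + y.a : ℕ) : ℤ); push_cast; linarith
  · refine (n3_ad zero_le_one (by positivity) A C).trans ?_
    show _ ≤ ((x.b + y.b : ℕ) : ℤ); push_cast; linarith
  · refine (n3_ad (by positivity) (by positivity) A C).trans ?_
    show _ ≤ ((x.c + y.c : ℕ) : ℤ); push_cast; linarith

theorem Rep.mul (h : Rep B0 B1 B2 S x F) (h' : Rep B0 B1 B2 S y G) :
    Rep B0 B1 B2 S (x.mul y) (fun r s t => F r s t * G r s t) := by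
  obtain ⟨A, h0, h1, h2, h3, h4⟩ := h
  obtain ⟨C, g0, g1, g2, g3, g4⟩ := h'
  refine ⟨mu3 A C, by rw [e3_mu, h0, g0]; rfl, ?_, ?_, ?_, fun r s t hS => by
    rw [e3_mu, h4 r s t hS, g4 r s t hS]⟩
  · refine (n3_mu zero_le_one zero_le_one A C).trans ?_
    show _ ≤ ((x.a * y.a : ℕ) : ℤ); push_cast
    exact mul_le_mul h1 g1 (n3_nonneg zero_le_one zero_le_one C) (by positivity)
  · refine (n3_mu zero_le_one (by positivity) A C).trans ?_
    show _ ≤ ((x.b * y.b : ℕ) : ℤ); push_cast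
    exact mul_le_mul h2 g2 (n3_nonneg zero_le_one (by positivity) C) (by positivity)
  · refine (n3_mu (by positivity) (by positivity) A C).trans ?_
    show _ ≤ ((x.c * y.c : ℕ) : ℤ); push_cast
    exact mul_le_mul h3 g3 (n3_nonneg (by positivity) (by positivity) C) (by positivity)

theorem Rep.cst (c : ℤ) : Rep B0 B1 B2 S (K.cst c) (fun _ _ _ => c) :=
  ⟨[[[c]]], by simp [e3, e2, e1, K.cst], by simp [n3, n2, n1, K.cst], by simp [n3, n2, n1, K.cst],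
    by simp [n3, n2, n1, K.cst], fun r s t _ => by simp [e3, e2, e1]⟩

theorem Rep.smul (c : ℤ) (h : Rep B0 B1 B2 S y G) :
    Rep B0 B1 B2 S (K.smul c y) (fun r s t => c * G r s t) := (Rep.cst c).mul h

theorem Rep.pow (h : Rep B0 B1 B2 S x F) :
    ∀ n : ℕ, Rep B0 B1 B2 S (x.pow n) (fun r s t => F r s t ^ n)
  | 0 => by
    have e : x.pow 0 = K.cst 1 := by
      show (⟨x.X ^ 0, x.a ^ 0, x.b ^ 0, x.c ^ 0⟩ : K) = _
      simp [K.cst]
    rw [e]; exact (Rep.cst 1).congr (by simp)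
  | n + 1 => by
    have e : x.pow (n + 1) = (x.pow n).mul x := by
      show (⟨x.X ^ (n + 1), x.a ^ (n + 1), x.b ^ (n + 1), x.c ^ (n + 1)⟩ : K) =
        ⟨x.X ^ n * x.X, x.a ^ n * x.a, x.b ^ n * x.b, x.c ^ n * x.c⟩
      simp [pow_succ]
    rw [e]; exact ((Rep.pow h n).mul h).congr (fun r s t _ => by ring)

theorem Rep.v0 : Rep B0 B1 B2 S (K.v0 B0) (fun r _ _ => r) :=
  ⟨[[], [[1]]], by simp [e3, e2, e1, K.v0], by simp [n3, n2, n1, K.v0], by simp [n3, n2, n1, K.v0],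
    by simp [n3, n2, n1, K.v0], fun r s t _ => by simp [e3, e2, e1]⟩
theorem Rep.v1 : Rep B0 B1 B2 S (K.v1 B1) (fun _ s _ => s) :=
  ⟨[[[], [1]]], by simp [e3, e2, e1, K.v1], by simp [n3, n2, n1, K.v1], by simp [n3, n2, n1, K.v1],
    by simp [n3, n2, n1, K.v1], fun r s t _ => by simp [e3, e2, e1]⟩
theorem Rep.v2 : Rep B0 B1 B2 S (K.v2 B2) (fun _ _ t => t) :=
  ⟨[[[0, 1]]], by simp [e3, e2, e1, K.v2], by simp [n3, n2, n1, K.v2], by simp [n3, n2, n1, K.v2],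
    by simp [n3, n2, n1, K.v2], fun r s t _ => by simp [e3, e2, e1]⟩

end rep

/-- the three bounds are small enough -/
def K.small (B0 B1 B2 : ℕ) (x : K) : Bool :=
  Nat.blt (Nat.mul 2 x.a) B2 && Nat.blt (Nat.mul 2 x.b) B1 && Nat.blt (Nat.mul 2 x.c) B0

def Q1 (B2 : ℕ) (r : P1) : Prop := ∀ c ∈ r, 2 * |c| < (B2 : ℤ)
def Q2 (B1 B2 : ℕ) (D : P2) : Prop := ∀ r ∈ D, Q1 B2 r ∧ 2 * |e1 (B2 : ℤ) r| < B1
def Q3 (B0 B1 B2 : ℕ) (A : P3) : Prop := ∀ D ∈ A, Q2 B1 B2 D ∧ 2 * |e2 (B1 : ℤ) B2 D| < B0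

theorem q3_of_small {B0 B1 B2 : ℕ} {x : K} {A : P3} (h : x.small B0 B1 B2 = true)
    (h1 : n3 1 1 A ≤ x.a) (h2 : n3 1 B2 A ≤ x.b) (h3 : n3 B1 B2 A ≤ x.c) : Q3 B0 B1 B2 A := by
  simp only [K.small, Bool.and_eq_true, Nat.blt_eq, Nat.mul_eq] at h
  obtain ⟨⟨g1, g2⟩, g3⟩ := h
  zify at g1 g2 g3
  intro D hD
  have a1 := le_nrm _ (n2_nonneg zero_le_one zero_le_one) A D hD
  have a2 := le_nrm _ (n2_nonneg zero_le_one (Int.natCast_nonneg B2)) A D hD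
  have a3 := le_nrm _ (n2_nonneg (Int.natCast_nonneg B1) (Int.natCast_nonneg B2)) A D hD
  refine ⟨fun r hr => ⟨fun c hc => ?_, ?_⟩, ?_⟩
  · have b1 := le_nrm _ (n1_nonneg zero_le_one) D r hr
    have b2 := le_nrm (fun c : ℤ => |c|) (fun _ => abs_nonneg _) r c hc
    unfold n3 n2 n1 at *
    linarith
  · have b1 := le_nrm _ (n1_nonneg (Int.natCast_nonneg B2)) D r hr
    have b2 := abs_e1 (Int.natCast_nonneg B2) r
    unfold n3 n2 at *
    linarith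
  · have b2 := abs_e2 (Int.natCast_nonneg B1) (Int.natCast_nonneg B2) D
    unfold n3 at *
    linarith

/-! ### the sign test -/

def Top (k X : ℕ) : Prop := ∀ i, X.testBit (k * i + (k - 1)) = false

theorem digits_of_top {α : Type} (φ : α → ℤ) {k : ℕ} (hk : 0 < k) {a : ℕ} (ha : 0 < a) :
    ∀ (l : List α) (X : ℕ), (∀ c ∈ l, 2 * |φ c| < ((2 ^ (k * a) : ℕ) : ℤ)) →
      hor φ ((2 ^ (k * a) : ℕ) : ℤ) l = X → Top k X → ∀ c ∈ l, ∃ Y : ℕ, φ c = Y ∧ Top k Y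
  | [], _, _, _, _ => by simp
  | b :: l, X, h, hX, hT => by
    have hb := h b (by simp)
    have ih := digits_of_top φ hk ha l (X / 2 ^ (k * a)) (fun d hd => h d (by simp [hd]))
    have hka : 0 < k * a := Nat.mul_pos hk ha
    have t1 : Top k (X % 2 ^ (k * a)) := fun i => by rw [Nat.testBit_mod_two_pow, hT i]; simp
    have t2 : Top k (X / 2 ^ (k * a)) := fun i => by
      rw [Nat.testBit_div_two_pow, show k * i + (k - 1) + k * a = k * (i + a) + (k - 1) by ring]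
      exact hT _
    have t3 : X % 2 ^ (k * a) < 2 ^ (k * a - 1) := by
      refine Nat.lt_pow_two_of_testBit _ (fun i hi => ?_)
      rcases Nat.eq_or_lt_of_le hi with rfl | hi
      · have := t1 (a - 1)
        obtain ⟨a, rfl⟩ := Nat.exists_eq_add_of_le' ha
        obtain ⟨k, rfl⟩ := Nat.exists_eq_add_of_le' hk
        convert this using 2
        simp only [Nat.add_sub_cancel]
        rw [Nat.sub_eq_iff_eq_add hka]; ring
      · rw [Nat.testBit_mod_two_pow]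
        have : ¬ i < k * a := by omega
        simp [this]
    have t4 : 2 * (X % 2 ^ (k * a)) < 2 ^ (k * a) := by
      have : 2 ^ (k * a) = 2 * 2 ^ (k * a - 1) := by
        rw [← pow_succ']; congr 1; omega
      omega
    have t5 := Nat.div_add_mod X (2 ^ (k * a))
    rw [hor_cons] at hX
    generalize 2 ^ (k * a) = B at *
    zify at t4 t5
    have hB : (0 : ℤ) < B := lt_of_le_of_lt (by positivity) hb
    have hm : (0 : ℤ) ≤ (X : ℤ) % B := Int.emod_nonneg _ hB.ne'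
    have e : hor φ (B : ℤ) l = (X : ℤ) / B := by
      by_contra hc
      have h1 : 1 ≤ |hor φ (B : ℤ) l - (X : ℤ) / B| := Int.one_le_abs (sub_ne_zero.2 hc)
      have h2 : |(X : ℤ) % B - φ b| = B * |hor φ (B : ℤ) l - (X : ℤ) / B| := by
        rw [show (X : ℤ) % B - φ b = B * (hor φ (B : ℤ) l - (X : ℤ) / B) by linarith, abs_mul,
          abs_of_pos hB]
      have h3 : |(X : ℤ) % B - φ b| ≤ (X : ℤ) % B + |φ b| := by
        refine (abs_sub _ _).trans ?_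
        rw [abs_of_nonneg hm]
      nlinarith
    intro c hc
    rcases List.mem_cons.1 hc with rfl | hc
    · refine ⟨X % B, ?_, t1⟩
      push_cast
      rw [e] at hX
      linarith
    · exact ih (by rw [e]; push_cast; rfl) t2 c hc

def mask (k N : ℕ) : ℕ := Nat.mul (Nat.pow 2 (k - 1))
  (Nat.div (Nat.sub (Nat.pow 2 (k * N)) 1) (Nat.sub (Nat.pow 2 k) 1))

theorem mask_succ {k : ℕ} (hk : 0 < k) (N : ℕ) :
    mask k (N + 1) = 2 ^ k * mask k N + 2 ^ (k - 1) := by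
  have h2 : 2 ≤ 2 ^ k := by
    calc 2 = 2 ^ 1 := rfl
      _ ≤ 2 ^ k := Nat.pow_le_pow_right (by norm_num) hk
  have e : ∀ N, mask k N = 2 ^ (k - 1) * ∑ i ∈ Finset.range N, (2 ^ k) ^ i := fun N => by
    rw [Nat.geomSum_eq h2, ← pow_mul]; rfl
  rw [e, e, Finset.sum_range_succ', mul_add, Finset.mul_sum, Finset.mul_sum, Finset.mul_sum]
  simp only [pow_zero, mul_one, add_left_inj]
  exact Finset.sum_congr rfl (fun i _ => by ring)

theorem testBit_mask {k : ℕ} (hk : 0 < k) : ∀ (N i : ℕ), i < N →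
    (mask k N).testBit (k * i + (k - 1)) = true
  | 0, _, h => by omega
  | N + 1, i, h => by
    rw [mask_succ hk, Nat.testBit_two_pow_mul_add _ (Nat.pow_lt_pow_right (by norm_num) (by omega))]
    rcases i with _ | i
    · simp only [mul_zero, zero_add]
      rw [if_pos (by omega)]; simp
    · rw [if_neg (by rw [Nat.mul_succ]; omega),
        show k * (i + 1) + (k - 1) - k = k * i + (k - 1) by rw [Nat.mul_succ]; omega]
      exact testBit_mask hk N i (by omega)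

def topTest (k N M : ℕ) : ℤ → Bool
  | Int.ofNat X => Nat.beq (Nat.land X M) 0 && Nat.blt X (Nat.pow 2 (k * N))
  | Int.negSucc _ => false

theorem topTest_sound {k : ℕ} (hk : 0 < k) (N : ℕ) :
    ∀ z : ℤ, topTest k N (mask k N) z = true → ∃ X : ℕ, z = X ∧ Top k X
  | Int.negSucc _, h => by simp [topTest] at h
  | Int.ofNat X, h => by
    simp only [topTest, Bool.and_eq_true, Nat.beq_eq, Nat.blt_eq] at h
    refine ⟨X, rfl, fun i => ?_⟩
    rcases Nat.lt_or_ge i N with hi | hi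
    · have := Nat.testBit_and X (mask k N) (k * i + (k - 1))
      rw [show X &&& mask k N = 0 from h.1, testBit_mask hk N i hi] at this
      simpa using this
    · refine Nat.testBit_lt_two_pow (lt_of_lt_of_le h.2 ?_)
      exact Nat.pow_le_pow_right (by norm_num) (le_trans (Nat.mul_le_mul_left k hi) (by omega))

theorem Rep.nonneg {k a1 a0 N : ℕ} (hk : 0 < k) (h1 : 0 < a1) (h0 : 0 < a0)
    {S : ℝ → ℝ → ℝ → Prop} {x : K} {F : F3}
    (h : Rep (2 ^ (k * a0)) (2 ^ (k * a1)) (2 ^ (k * 1)) S x F)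
    (hs : x.small (2 ^ (k * a0)) (2 ^ (k * a1)) (2 ^ (k * 1)) = true)
    (ht : topTest k N (mask k N) x.X = true) {r s t : ℝ} (hr : 0 ≤ r) (hs' : 0 ≤ s) (ht' : 0 ≤ t)
    (hS : S r s t) : 0 ≤ F r s t := by
  obtain ⟨A, g0, g1, g2, g3, g4⟩ := h
  have q := q3_of_small hs g1 g2 g3
  obtain ⟨X, hX, hT⟩ := topTest_sound hk N _ ht
  rw [← g4 r s t hS]
  have d0 := digits_of_top _ hk h0 A X (fun D hD => (q D hD).2) (g0.trans hX) hT
  refine hor_nonneg _ hr A (fun D hD => ?_)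
  obtain ⟨Y, hY, hTY⟩ := d0 D hD
  have d1 := digits_of_top _ hk h1 D Y (fun r hr => ((q D hD).1 r hr).2) hY hTY
  refine hor_nonneg _ hs' D (fun w hw => ?_)
  obtain ⟨Z, hZ, hTZ⟩ := d1 w hw
  have d2 := digits_of_top _ hk one_pos w Z ((q D hD).1 w hw).1 hZ hTZ
  refine hor_nonneg _ ht' w (fun c hc => ?_)
  obtain ⟨U, hU, -⟩ := d2 c hc
  have : c = U := hU
  rw [this]; positivity

/-! ### reading off the coefficients -/

def isZ : ℤ → Bool
  | Int.ofNat n => Nat.beq n 0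
  | Int.negSucc _ => false

theorem isZ_iff : ∀ z : ℤ, isZ z = true ↔ z = 0
  | Int.ofNat n => by simp [isZ]
  | Int.negSucc _ => by simp [isZ]

def dv (k : ℕ) (H Y : ℤ) : ℤ := Int.shiftRight (Int.add Y H) k
def dg (k : ℕ) (H nB Y : ℤ) : ℤ := Int.add Y (Int.mul (dv k H Y) nB)

def unp (k : ℕ) (H nB : ℤ) : ℕ → ℤ → List ℤ
  | 0, _ => []
  | f + 1, Y => match isZ Y with
    | true => []
    | false => dg k H nB Y :: unp k H nB f (dv k H Y)

def unpOk (k : ℕ) (H : ℤ) : ℕ → ℤ → Bool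
  | 0, Y => isZ Y
  | f + 1, Y => isZ Y || unpOk k H f (dv k H Y)

theorem dv_eq {k : ℕ} (hk : 0 < k) {c Z : ℤ} (hc : 2 * |c| < ((2 ^ k : ℕ) : ℤ)) :
    dv k (2 ^ (k - 1)) (c + ((2 ^ k : ℕ) : ℤ) * Z) = Z := by
  show (c + ((2 ^ k : ℕ) : ℤ) * Z + 2 ^ (k - 1)) >>> k = Z
  rw [Int.shiftRight_eq_div_pow]
  have e : ((2 ^ k : ℕ) : ℤ) = 2 * 2 ^ (k - 1) := by
    push_cast
    rw [← pow_succ']; congr 1; omega
  have hp : (0 : ℤ) < 2 ^ (k - 1) := by positivity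
  rw [show c + ((2 ^ k : ℕ) : ℤ) * Z + 2 ^ (k - 1) = c + 2 ^ (k - 1) + ((2 ^ k : ℕ) : ℤ) * Z by ring,
    Int.add_mul_ediv_left _ _ (by positivity), Int.ediv_eq_zero_of_lt, zero_add]
  · have := neg_abs_le c; linarith
  · have := le_abs_self c; linarith

theorem hor_unp {α β : Type} (φ : α → ℤ) (ψ : α → ℝ) (Q : α → Prop) (dec : ℤ → β) (ψ' : β → ℝ)
    (okd : ℤ → Bool) (hdec : ∀ c, Q c → okd (φ c) = true → ψ' (dec (φ c)) = ψ c)
    (hz : ∀ c, Q c → φ c = 0 → ψ c = 0) (t : ℝ) {k : ℕ} (hk : 0 < k) :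
    ∀ (f : ℕ) (l : List α), (∀ c ∈ l, Q c ∧ 2 * |φ c| < ((2 ^ k : ℕ) : ℤ)) →
      unpOk k (2 ^ (k - 1)) f (hor φ ((2 ^ k : ℕ) : ℤ) l) = true →
      (unp k (2 ^ (k - 1)) (-((2 ^ k : ℕ) : ℤ)) f (hor φ ((2 ^ k : ℕ) : ℤ) l)).all okd = true →
      hor ψ' t ((unp k (2 ^ (k - 1)) (-((2 ^ k : ℕ) : ℤ)) f
        (hor φ ((2 ^ k : ℕ) : ℤ) l)).map dec) = hor ψ t l := by
  have zer : ∀ l : List α, (∀ c ∈ l, Q c ∧ 2 * |φ c| < ((2 ^ k : ℕ) : ℤ)) →
      hor φ ((2 ^ k : ℕ) : ℤ) l = 0 → hor ψ t l = 0 := fun l h h0 =>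
    hor_eq_zero _ _ _ (fun c hc => hz c (h c hc).1 (zero_of_hor φ l (fun c hc => (h c hc).2) h0 c hc))
  intro f
  induction f with
  | zero =>
    intro l h h1 _
    rw [unpOk, isZ_iff] at h1
    rw [zer l h h1]; rfl
  | succ f ih =>
    intro l h h1 h2
    rw [unp] at h2 ⊢
    cases hZ : isZ (hor φ ((2 ^ k : ℕ) : ℤ) l) with
    | true => rw [zer l h ((isZ_iff _).1 hZ)]; rfl
    | false =>
      rw [unpOk, hZ, Bool.false_or] at h1
      rw [hZ] at h2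
      rcases l with _ | ⟨c, l⟩
      · simp [isZ] at hZ
      · have hc := h c (by simp)
        have e2 : dg k (2 ^ (k - 1)) (-((2 ^ k : ℕ) : ℤ)) (hor φ ((2 ^ k : ℕ) : ℤ) (c :: l)) = φ c := by
          show hor φ _ (c :: l) + dv k _ (hor φ _ (c :: l)) * _ = _
          rw [hor_cons, dv_eq hk hc.2]; ring
        simp only [e2] at h2 ⊢
        rw [hor_cons φ, dv_eq hk hc.2] at h1 h2 ⊢
        rw [List.all_cons, Bool.and_eq_true] at h2
        rw [List.map_cons, hor_cons, hor_cons, hdec c hc.1 h2.1,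
          ih l (fun d hd => h d (by simp [hd])) h1 h2.2]

def un (k f : ℕ) : ℤ → List ℤ := unp k (Int.ofNat (Nat.pow 2 (k - 1))) (Int.negOfNat (Nat.pow 2 k)) f
def uo (k f : ℕ) : ℤ → Bool := unpOk k (Int.ofNat (Nat.pow 2 (k - 1))) f

theorem un_eq (k f : ℕ) : un k f = unp k (2 ^ (k - 1)) (-((2 ^ k : ℕ) : ℤ)) f := by
  unfold un; congr 1
theorem uo_eq (k f : ℕ) : uo k f = unpOk k (2 ^ (k - 1)) f := rfl

def dec2 (k1 k2 f : ℕ) (Y : ℤ) : P2 := (un k1 f Y).map (un k2 f)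
def dec3 (k0 k1 k2 f : ℕ) (Y : ℤ) : P3 := (un k0 f Y).map (dec2 k1 k2 f)
def ok2 (k1 k2 f : ℕ) (Y : ℤ) : Bool := uo k1 f Y && (un k1 f Y).all (uo k2 f)
def ok3 (k0 k1 k2 f : ℕ) (Y : ℤ) : Bool := uo k0 f Y && (un k0 f Y).all (ok2 k1 k2 f)

theorem Rep.decode {k0 k1 k2 f : ℕ} (h0 : 0 < k0) (h1 : 0 < k1) (h2 : 0 < k2)
    {S : ℝ → ℝ → ℝ → Prop} {x : K} {F : F3} (h : Rep (2 ^ k0) (2 ^ k1) (2 ^ k2) S x F)
    (hs : x.small (2 ^ k0) (2 ^ k1) (2 ^ k2) = true) (ho : ok3 k0 k1 k2 f x.X = true)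
    {r s t : ℝ} (hS : S r s t) : e3 r s t (dec3 k0 k1 k2 f x.X) = F r s t := by
  obtain ⟨A, g0, g1, g2, g3, g4⟩ := h
  have q := q3_of_small hs g1 g2 g3
  rw [← g4 r s t hS, ← g0]
  rw [← g0] at ho
  have z1 : ∀ w : P1, Q1 (2 ^ k2) w → e1 ((2 ^ k2 : ℕ) : ℤ) w = 0 → e1 t w = 0 := fun w hw e =>
    hor_eq_zero _ _ _ (fun c hc => by
      have : c = 0 := zero_of_hor _ w hw e c hc
      simp [this])
  have l1 : ∀ w : P1, Q1 (2 ^ k2) w → uo k2 f (e1 ((2 ^ k2 : ℕ) : ℤ) w) = true →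
      e1 t (un k2 f (e1 ((2 ^ k2 : ℕ) : ℤ) w)) = e1 t w := fun w hw ok => by
    have := hor_unp (fun c : ℤ => ((c : ℤ) : ℤ)) (fun c : ℤ => (c : ℝ)) (fun _ => True) id
      (fun c : ℤ => (c : ℝ)) (fun _ => true) (fun _ _ _ => rfl) (fun c _ e => by
        have : c = 0 := e
        simp [this]) t h2 f w (fun c hc => ⟨trivial, hw c hc⟩) ok (by simp)
    rw [List.map_id] at this
    rw [un_eq]; exact this
  have z2 : ∀ D : P2, Q2 (2 ^ k1) (2 ^ k2) D → e2 ((2 ^ k1 : ℕ) : ℤ) ((2 ^ k2 : ℕ) : ℤ) D = 0 →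
      e2 s t D = 0 := fun D hD e =>
    hor_eq_zero _ _ _ (fun w hw => z1 w (hD w hw).1 (zero_of_hor _ D (fun w hw => (hD w hw).2) e w hw))
  have l2 : ∀ D : P2, Q2 (2 ^ k1) (2 ^ k2) D →
      ok2 k1 k2 f (e2 ((2 ^ k1 : ℕ) : ℤ) ((2 ^ k2 : ℕ) : ℤ) D) = true →
      e2 s t (dec2 k1 k2 f (e2 ((2 ^ k1 : ℕ) : ℤ) ((2 ^ k2 : ℕ) : ℤ) D)) = e2 s t D := fun D hD ok => by
    rw [ok2, Bool.and_eq_true, un_eq] at ok
    rw [dec2, un_eq]
    exact hor_unp _ (e1 t) (Q1 (2 ^ k2)) _ (e1 t) (uo k2 f) l1 z1 s h1 f D hD ok.1 ok.2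
  rw [ok3, Bool.and_eq_true, un_eq] at ho
  rw [dec3, un_eq]
  exact hor_unp _ (e2 s t) (Q2 (2 ^ k1) (2 ^ k2)) _ (e2 s t) (ok2 k1 k2 f) l2 z2 r h0 f A q ho.1 ho.2

end Pool.Agent.MP_4948b4_mp
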